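import Mathlib
import Pool.Agent.Q43.LC.HypAe
import Pool.Agent.Q267.DV.Fin2

/-!
# Fibonacci and Lucas polynomials at almost every real point: infinitely many prime integer parts

For real `x > 0` let `F x n` and `L x n` be the real Fibonacci and Lucas sequences with the recurrence
`T (n + 2) = x T (n + 1) + T n` and the initial values `0, 1` and `2, x` (at `x = 1` the Fibonacci and Lucas
numbers).  For every positive `C ^ 2` function `A` on `(0, ∞)`, every set `S` of indices with divergent sum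
of `1 / m` (for example all indices, or the prime indices) and almost every `x > 0` the integer parts of
both `A x * F x m` and `A x * L x m` are prime for infinitely many `m ∈ S`.  If the sum converges, then
for almost every `x > 0` they are prime for only finitely many `m ∈ S`.
-/

set_option autoImplicit false

namespace Pool.Agent.Results.MP_5893d7_nt.EveryDivergentIndexSet

open MeasureTheory

/-- The real Fibonacci sequence with parameter `x`. -/
def F (x : ℝ) : ℕ → ℝ
  | 0 => 0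
  | 1 => 1
  | n + 2 => x * F x (n + 1) + F x n

/-- The real Lucas sequence with parameter `x`. -/
def L (x : ℝ) : ℕ → ℝ
  | 0 => 2
  | 1 => x
  | n + 2 => x * L x (n + 1) + L x n

lemma F_eq (x : ℝ) (n : ℕ) : F x n = Pool.Agent.Q43.LC.FF x n := by
  induction n using Nat.twoStepInduction with
  | zero => rfl
  | one => rfl
  | more n h1 h2 =>
    show x * F x (n + 1) + F x n = _
    rw [h1, h2]
    rfl

lemma L_eq (x : ℝ) (n : ℕ) : L x n = Pool.Agent.Q43.LC.LL x n := by
  induction n using Nat.twoStepInduction with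
  | zero => rfl
  | one => rfl
  | more n h1 h2 =>
    show x * L x (n + 1) + L x n = _
    rw [h1, h2]
    rfl

lemma F_eq' (x : ℝ) (n : ℕ) : F x n = Pool.Agent.W66C.lU x n := by
  induction n using Nat.twoStepInduction with
  | zero => rfl
  | one => rfl
  | more n h1 h2 =>
    show x * F x (n + 1) + F x n = _
    rw [h1, h2]
    rfl

lemma L_eq' (x : ℝ) (n : ℕ) : L x n = Pool.Agent.W66C.lV x n := by
  induction n using Nat.twoStepInduction with
  | zero => rfl
  | one => rfl
  | more n h1 h2 =>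
    show x * L x (n + 1) + L x n = _
    rw [h1, h2]
    rfl

lemma inf_of {S : Set ℕ} {v : ℕ → ℝ} (h : ∀ M : ℕ, ∃ m ∈ S, M ≤ m ∧ (⌊v m⌋₊).Prime) :
    {m : ℕ | m ∈ S ∧ (⌊v m⌋₊).Prime}.Infinite := by
  refine Set.infinite_of_forall_exists_gt fun M => ?_
  obtain ⟨m, h2, h3, h4⟩ := h (M + 1)
  exact ⟨m, ⟨h2, h4⟩, by omega⟩

/-- The dichotomy: infinitely many prime values for almost every `x` if and only if the sum of `1 / m` over
the index set diverges. -/
theorem result :
    (∀ n : ℕ, F 1 n = Nat.fib n) ∧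
    (∀ A : ℝ → ℝ, ContDiffOn ℝ 2 A (Set.Ioi 0) → (∀ x, 0 < x → 0 < A x) →
      ∀ S : Set ℕ, (¬ Summable fun m : S => 1 / ((m : ℕ) : ℝ)) →
        ∀ᵐ x : ℝ, 0 < x → {m : ℕ | m ∈ S ∧ (⌊A x * F x m⌋₊).Prime}.Infinite ∧
          {m : ℕ | m ∈ S ∧ (⌊A x * L x m⌋₊).Prime}.Infinite) ∧
    (∀ A : ℝ → ℝ, ContDiffOn ℝ 2 A (Set.Ioi 0) → (∀ x, 0 < x → 0 < A x) →
      ∀ S : Set ℕ, (Summable fun m : S => 1 / ((m : ℕ) : ℝ)) →
        ∀ᵐ x : ℝ, 0 < x → {m : ℕ | m ∈ S ∧ (⌊A x * F x m⌋₊).Prime}.Finite ∧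
          {m : ℕ | m ∈ S ∧ (⌊A x * L x m⌋₊).Prime}.Finite) := by
  refine ⟨fun n => ?_, fun A hA hA0 S hS => ?_, fun A hA hA0 S hS => ?_⟩
  · induction n using Nat.twoStepInduction with
    | zero => simp [F]
    | one => simp [F]
    | more n h1 h2 =>
      show 1 * F 1 (n + 1) + F 1 n = _
      rw [h1, h2, Nat.fib_add_two]
      push_cast
      ring
  · simp only [F_eq', L_eq']
    filter_upwards [Pool.Agent.Q267.DV.U_inf hA hA0 hS, Pool.Agent.Q267.DV.V_inf hA hA0 hS] with x h1 h2 hx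
    exact ⟨inf_of (h1 hx), inf_of (h2 hx)⟩
  · simp only [F_eq, L_eq]
    have hA1 : ContDiffOn ℝ 1 A (Set.Ioi 0) := hA.of_le (by norm_num)
    have h := Pool.Agent.Q43.LC.ae_sinh two_pos
      (Q := fun x => ∃ M : ℕ, ∀ m ∈ S, M ≤ m → ¬ (⌊A x * Pool.Agent.Q43.LC.FF x m⌋₊).Prime ∧
        ¬ (⌊A x * Pool.Agent.Q43.LC.LL x m⌋₊).Prime)
      (Pool.Agent.Q43.LC.hyp_ae (Pool.Agent.Q43.LC.logC1_of hA1 hA0 two_pos)
        (Pool.Agent.Q43.LC.logC1_of hA1 hA0 two_pos) hS)
    filter_upwards [h] with x hx h1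
    obtain ⟨M, hM⟩ := hx h1
    constructor
    · refine (Set.finite_lt_nat M).subset ?_
      rintro m ⟨h2, h3⟩
      by_contra hcon
      exact (hM m h2 (not_lt.1 hcon)).1 h3
    · refine (Set.finite_lt_nat M).subset ?_
      rintro m ⟨h2, h3⟩
      by_contra hcon
      exact (hM m h2 (not_lt.1 hcon)).2 h3

end Pool.Agent.Results.MP_5893d7_nt.EveryDivergentIndexSet
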