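import Mathlib
import Pool.Agent.TH888.C.Val
import Pool.Agent.H447R2.ML.Spec

set_option autoImplicit false

/-!
# Fibonacci and Lucas polynomials at almost every real point: error term and sets of indices

For real `x > 0` let `F x n` and `L x n` be the real Fibonacci and Lucas sequences with the
recurrence `T (n + 2) = x T (n + 1) + T n` and the initial values `0, 1` and `2, x` (the values at
`x` of the Fibonacci and Lucas polynomials).  At `x = 1` they are the Fibonacci and Lucas numbers.
For a real sequence `s` and a prime `p` let `W s p` be the `p`-rough part (the product, with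
multiplicity, of the prime factors larger than `p`) of `⌊s p⌋`.  For the Fibonacci and the Lucas
numbers this is the number with the index `p` itself, for all primes `p > 5`.  A sequence obeys the
law with constant `κ` for a set `S` if the number of primes `p ≤ n` with `W s p` prime is
`κ log n + O((log n) ^ (1/2) (log log n) ^ (5/2))`, if the same holds for the primes in `S` with
`V S n` (the sum of `log p / p` over the primes `p ≤ n` in `S`) in the place of `log n` and the error
term `O((V K) ^ (1/2) (log (V K)) ^ 2)`, `K = log log n`, in case `V S` is unbounded, and if there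
are infinitely many `p` in `S` with `W s p` prime if and only if `V S` is unbounded.

We prove that for every positive `C ^ 2` function `A` on `(0, ∞)` and every set `S`, for almost every
real `x > 0` both sequences `A x * F x n` and `A x * L x n` obey the law for `S` with the constant
`e ^ γ / log ((x + √(x ^ 2 + 4)) / 2)`.
-/

namespace Pool.Agent.Results.MP_5893d7_nt.RealRecurrences

open Filter Topology MeasureTheory Asymptotics

/-- The real Fibonacci sequence with parameter `x`. -/
def F (x : ℝ) : ℕ → ℝ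
  | 0 => 0
  | 1 => 1
  | n + 2 => x * F x (n + 1) + F x n

/-- The real Lucas sequence with parameter `x`. -/
def L (x : ℝ) : ℕ → ℝ
  | 0 => 2
  | 1 => x
  | n + 2 => x * L x (n + 1) + L x n

/-- The product, with multiplicity, of the prime factors of `m` that are larger than `p`. -/
def roughPart (p m : ℕ) : ℕ := (m.primeFactorsList.filter (fun r => p < r)).prod

/-- The `p`-rough part of the integer part of the term `s p` of a real sequence. -/
noncomputable def W (s : ℕ → ℝ) (p : ℕ) : ℕ := roughPart p ⌊s p⌋₊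

open Classical in
/-- The number of primes `p ≤ n` in the set `S` for which `W s p` is prime. -/
noncomputable def M (s : ℕ → ℝ) (S : Set ℕ) (n : ℕ) : ℕ :=
  ((Finset.range (n + 1)).filter (fun p => p.Prime ∧ p ∈ S ∧ (W s p).Prime)).card

open Classical in
/-- The sum of `log p / p` over the primes `p ≤ n` in the set `S`. -/
noncomputable def V (S : Set ℕ) (n : ℕ) : ℝ :=
  ∑ p ∈ (Finset.range (n + 1)).filter (fun p => p.Prime ∧ p ∈ S), Real.log p / p

/-- The law with constant `κ`, with error term, for all primes and for the primes in `S`. -/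
structure Law (s : ℕ → ℝ) (κ : ℝ) (S : Set ℕ) : Prop where
  /-- the number of all primes `p ≤ n` with `W s p` prime -/
  all : (fun n : ℕ => (M s Set.univ n : ℝ) - κ * Real.log n) =O[atTop]
    (fun n : ℕ => Real.sqrt (Real.log n) * (Real.log (Real.log n)) ^ ((5 : ℝ) / 2))
  /-- the number of primes `p ≤ n` in `S` with `W s p` prime -/
  sets : Tendsto (V S) atTop atTop → (fun n : ℕ => (M s S n : ℝ) - κ * V S n) =O[atTop]
    (fun n : ℕ => Real.sqrt (V S n * Real.log (Real.log n)) *
      (Real.log (V S n * Real.log (Real.log n))) ^ 2)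
  /-- there are infinitely many in `S` if and only if the weight of `S` is infinite -/
  dichotomy : {p : ℕ | p.Prime ∧ p ∈ S ∧ (W s p).Prime}.Infinite ↔ Tendsto (V S) atTop atTop

lemma V_eq (S : Set ℕ) : V S = Pool.Agent.TH888.R.VS S := by
  classical
  funext n
  unfold V Pool.Agent.TH888.R.VS
  rw [Finset.sum_filter]
  refine Finset.sum_congr rfl fun p _ => ?_
  by_cases h : p.Prime ∧ p ∈ S
  · rw [if_pos h, if_pos ⟨h.2, h.1⟩]
    rfl
  · rw [if_neg h, if_neg fun h1 => h ⟨h1.2, h1.1⟩]

lemma M_eq (s : ℕ → ℝ) (S : Set ℕ) (n : ℕ) :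
    M s S n = Pool.Agent.TH888.R.cS S (fun p => ⌊s p⌋₊) n := by
  classical
  unfold M Pool.Agent.TH888.R.cS
  rfl

/-- the law from the library statement -/
lemma law_of {s : ℕ → ℝ} {κ : ℝ} {S : Set ℕ}
    (h1 : Pool.Agent.TH888.R.Pt (fun p => ⌊s p⌋₊) κ Set.univ)
    (h2 : Pool.Agent.TH888.R.Pt (fun p => ⌊s p⌋₊) κ S) : Law s κ S := by
  refine ⟨?_, fun hS => ?_, ?_⟩
  · obtain ⟨B, hB, h⟩ := h1.law Pool.Agent.TH888.R.VS_univ_tendsto
    simp only [M_eq]
    exact Pool.Agent.TH888.R.bigO_all hB h
  · rw [V_eq] at hS ⊢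
    obtain ⟨B, hB, h⟩ := h2.law hS
    simp only [M_eq]
    exact Pool.Agent.TH888.R.bigO_set hB hS h
  · rw [V_eq]
    constructor
    · intro hi
      by_contra hn
      exact hi (h2.fin hn)
    · exact h2.inf

lemma F_eq (x : ℝ) (n : ℕ) : F x n = Pool.Agent.W66C.lU x n := by
  induction n using Nat.twoStepInduction with
  | zero => rfl
  | one => rfl
  | more n h1 h2 => rw [F, h1, h2]; rfl

lemma L_eq (x : ℝ) (n : ℕ) : L x n = Pool.Agent.W66C.lV x n := by
  induction n using Nat.twoStepInduction with
  | zero => rfl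
  | one => rfl
  | more n h1 h2 => rw [L, h1, h2]; rfl

lemma F_one (n : ℕ) : F 1 n = (Nat.fib n : ℝ) := by
  induction n using Nat.twoStepInduction with
  | zero => simp [F]
  | one => simp [F]
  | more n h1 h2 =>
    rw [F, h1, h2, Nat.fib_add_two]
    push_cast
    ring

lemma L_one (n : ℕ) : L 1 n = (Pool.Agent.H447R2.ML.V 1 n : ℝ) := by
  induction n using Nat.twoStepInduction with
  | zero => rw [L]; norm_num [Pool.Agent.H447R2.ML.V]
  | one => rw [L]; norm_num [Pool.Agent.H447R2.ML.V]
  | more n h1 h2 =>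
    rw [L, h1, h2, Pool.Agent.H447R2.ML.V_add_two]
    push_cast
    ring

lemma fib_eq (n : ℕ) : Pool.Agent.H447R2.ML.U 1 n = Nat.fib n := by
  induction n using Nat.twoStepInduction with
  | zero => rfl
  | one => rfl
  | more n h1 h2 =>
    rw [Pool.Agent.H447R2.ML.U_add_two, h1, h2, Nat.fib_add_two]
    ring

/-- The Fibonacci numbers. -/
lemma W_fib {p : ℕ} (hp : p.Prime) (h5 : 5 < p) : (W (F 1) p : ℝ) = F 1 p := by
  have hd : ¬ p ∣ 1 ^ 2 + 4 := by
    intro h
    have := Nat.le_of_dvd (by norm_num) h
    omega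
  have h := Pool.Agent.H447R2.ML.rough_U 1 one_pos hp (by omega) hd
    (x := F 1 p) (by rw [F_one, fib_eq])
  rw [fib_eq] at h
  rw [F_one]
  exact_mod_cast h

/-- The Lucas numbers. -/
lemma W_luc {p : ℕ} (hp : p.Prime) (h5 : 5 < p) : (W (L 1) p : ℝ) = L 1 p := by
  have hd : ¬ p ∣ 1 := fun h => hp.one_lt.ne' (Nat.dvd_one.1 h)
  have h : Pool.Agent.H305R2.roughPart p ⌊L 1 p⌋₊ = Pool.Agent.H447R2.ML.V 1 p := by
    rw [L_one, Nat.floor_natCast]
    refine Pool.Agent.H447R2.ML.roughPart_eq_self ?_ fun q hq h => ?_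
    · exact (Pool.Agent.H447R2.ML.V_pos 1 p one_pos).ne'
    · exact Pool.Agent.H447R2.ML.lt_of_dvd_V 1 hp (by omega) hd hq
        (fun h' => hq.one_lt.ne' (Nat.dvd_one.1 h')) h
  rw [L_one]
  exact_mod_cast h

/-- At `x = 1` the sequences are the Fibonacci and the Lucas numbers, which are prime to all primes
up to their prime index; for almost every real `x > 0` both sequences, multiplied with any positive
`C ^ 2` function of `x`, obey the law with a square root error term and the dichotomy. -/
theorem result :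
    (∀ p : ℕ, p.Prime → 5 < p → F 1 p = Nat.fib p ∧ (W (F 1) p : ℝ) = F 1 p ∧
      (W (L 1) p : ℝ) = L 1 p) ∧
    (∀ (A : ℝ → ℝ), ContDiffOn ℝ 2 A (Set.Ioi 0) → (∀ x, 0 < x → 0 < A x) → ∀ S : Set ℕ,
      ∀ᵐ x : ℝ, 0 < x →
        Law (fun n => A x * F x n)
          (Real.exp Real.eulerMascheroniConstant / Real.log ((x + Real.sqrt (x ^ 2 + 4)) / 2)) S ∧
        Law (fun n => A x * L x n)
          (Real.exp Real.eulerMascheroniConstant / Real.log ((x + Real.sqrt (x ^ 2 + 4)) / 2)) S) := by
  refine ⟨fun p hp h5 => ⟨F_one p, W_fib hp h5, W_luc hp h5⟩, fun A hA hpos S => ?_⟩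
  filter_upwards [Pool.Agent.TH888.C.pt_U_curve Set.univ hA hpos,
    Pool.Agent.TH888.C.pt_U_curve S hA hpos, Pool.Agent.TH888.C.pt_V_curve Set.univ hA hpos,
    Pool.Agent.TH888.C.pt_V_curve S hA hpos] with x h1 h2 h3 h4 hx
  have e1 : (fun n => A x * F x n) = fun n => A x * Pool.Agent.W66C.lU x n := by
    funext n; rw [F_eq]
  have e2 : (fun n => A x * L x n) = fun n => A x * Pool.Agent.W66C.lV x n := by
    funext n; rw [L_eq]
  rw [e1, e2]
  exact ⟨law_of (h1 hx) (h2 hx), law_of (h3 hx) (h4 hx)⟩

end Pool.Agent.Results.MP_5893d7_nt.RealRecurrences
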