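import Mathlib
import Pool.Agent.Q43.CV.Hyp
import Pool.Agent.H447R2.ML.Spec

set_option autoImplicit false

/-!
# Fibonacci and Lucas polynomials at almost every real point: repulsion, and both primes at one index

For real `x > 0` let `F x n` and `L x n` be the solutions of `T (n + 2) = x T (n + 1) + T n` with the
initial values `0, 1` and `2, x` (the Fibonacci and Lucas numbers for `x = 1`).  For a real sequence `s`
and a prime `p` let `W s p` be the `p`-rough part (the product, with multiplicity, of the prime factors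
larger than `p`) of `⌊s p⌋`; for the Fibonacci and the Lucas numbers this is the number with the index
`p` itself, for all primes `p > 5`.  We prove for every positive `C ^ 2` function `A` on `(0, ∞)`, for
example `A = 1`, and the sequences `A x * F x n` and `A x * L x n`:

* for almost every `x > 0` there are only finitely many primes `p` for which both rough parts are prime;
  more generally this holds for the sequences `A x * F x n` and `B x * L x n` and almost all `x > 0` at
  which the derivative of `B x √(x² + 4) / A x` does not vanish;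
* repulsion: for every set `E` of pairs of primes `p < q` with a finite sum of the weights
  `(log p / p) (log q / q)`, for almost every `x > 0` and for each of the two sequences, there are only
  finitely many pairs `(p, q)` in `E` for which both `W s p` and `W s q` are prime; for example, for all
  large primes `p < q` with `W s p` and `W s q` prime, `q > p + p / (log p) ^ (1 + ε)`.
-/

namespace Pool.Agent.Results.MP_5893d7_nt.RepulsionAndJointPrimes

open Filter Topology MeasureTheory

/-- The product, with multiplicity, of the prime factors of `m` that are larger than `p`. -/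
def roughPart (p m : ℕ) : ℕ := (m.primeFactorsList.filter (fun r => p < r)).prod

/-- The `p`-rough part of the integer part of the term `s p` of a real sequence. -/
noncomputable def W (s : ℕ → ℝ) (p : ℕ) : ℕ := roughPart p ⌊s p⌋₊

/-- The Fibonacci polynomials at the real number `x`. -/
def F (x : ℝ) : ℕ → ℝ
  | 0 => 0
  | 1 => 1
  | n + 2 => x * F x (n + 1) + F x n

/-- The Lucas polynomials at the real number `x`. -/
def L (x : ℝ) : ℕ → ℝ
  | 0 => 2
  | 1 => x
  | n + 2 => x * L x (n + 1) + L x n

/-- The weight of a level. -/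
noncomputable def wt (p : ℕ) : ℝ := Real.log p / p

/-- Repulsion for the sequence `s` and the set `E` of pairs. -/
structure Repulsion (s : ℕ → ℝ) (E : Set (ℕ × ℕ)) : Prop where
  /-- only finitely many pairs in `E` occur -/
  pairs : {x ∈ E | (W s x.1).Prime ∧ (W s x.2).Prime}.Finite
  /-- the gaps -/
  gaps : ∀ ε : ℝ, 0 < ε → ∃ p₀ : ℕ, ∀ p q : ℕ, p₀ ≤ p → p < q → p.Prime → q.Prime →
    (W s p).Prime → (W s q).Prime → (p : ℝ) + p / Real.log p ^ (1 + ε) < q

lemma rep_of {s : ℕ → ℝ} {E : Set (ℕ × ℕ)} (h : Pool.Agent.Q43.CV.Rep (fun p => ⌊s p⌋₊) E ∧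
    Pool.Agent.Q43.CV.Gaps (fun p => ⌊s p⌋₊)) : Repulsion s E := ⟨h.1, h.2⟩

lemma F_eq (x : ℝ) (n : ℕ) : F x n = Pool.Agent.W66C.lU x n := by
  induction n using Nat.twoStepInduction with
  | zero => rfl
  | one => rfl
  | more n h1 h2 => rw [F, h1, h2]; rfl

lemma L_eq (x : ℝ) (n : ℕ) : L x n = Pool.Agent.W66C.lV x n := by
  induction n using Nat.twoStepInduction with
  | zero => rfl
  | one => rfl
  | more n h1 h2 => rw [L, h1, h2]; rfl

lemma F_one (n : ℕ) : F 1 n = (Nat.fib n : ℝ) := by
  induction n using Nat.twoStepInduction with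
  | zero => simp [F]
  | one => simp [F]
  | more n h1 h2 =>
    rw [F, h1, h2, Nat.fib_add_two]
    push_cast
    ring

lemma L_one (n : ℕ) : L 1 n = (Pool.Agent.H447R2.ML.V 1 n : ℝ) := by
  induction n using Nat.twoStepInduction with
  | zero => rw [L]; norm_num [Pool.Agent.H447R2.ML.V]
  | one => rw [L]; norm_num [Pool.Agent.H447R2.ML.V]
  | more n h1 h2 =>
    rw [L, h1, h2, Pool.Agent.H447R2.ML.V_add_two]
    push_cast
    ring

lemma fib_eq (n : ℕ) : Pool.Agent.H447R2.ML.U 1 n = Nat.fib n := by
  induction n using Nat.twoStepInduction with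
  | zero => rfl
  | one => rfl
  | more n h1 h2 =>
    rw [Pool.Agent.H447R2.ML.U_add_two, h1, h2, Nat.fib_add_two]
    ring

/-- The Fibonacci numbers. -/
lemma W_fib {p : ℕ} (hp : p.Prime) (h5 : 5 < p) : (W (F 1) p : ℝ) = F 1 p := by
  have hd : ¬ p ∣ 1 ^ 2 + 4 := by
    intro h
    have := Nat.le_of_dvd (by norm_num) h
    omega
  have h := Pool.Agent.H447R2.ML.rough_U 1 one_pos hp (by omega) hd
    (x := F 1 p) (by rw [F_one, fib_eq])
  rw [fib_eq] at h
  rw [F_one]
  exact_mod_cast h

/-- The Lucas numbers. -/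
lemma W_luc {p : ℕ} (hp : p.Prime) (h5 : 5 < p) : (W (L 1) p : ℝ) = L 1 p := by
  have hd : ¬ p ∣ 1 := fun h => hp.one_lt.ne' (Nat.dvd_one.1 h)
  have h : Pool.Agent.H305R2.roughPart p ⌊L 1 p⌋₊ = Pool.Agent.H447R2.ML.V 1 p := by
    rw [L_one, Nat.floor_natCast]
    refine Pool.Agent.H447R2.ML.roughPart_eq_self ?_ fun q hq h => ?_
    · exact (Pool.Agent.H447R2.ML.V_pos 1 p one_pos).ne'
    · exact Pool.Agent.H447R2.ML.lt_of_dvd_V 1 hp (by omega) hd hq
        (fun h' => hq.one_lt.ne' (Nat.dvd_one.1 h')) h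
  rw [L_one]
  exact_mod_cast h

/-- The Fibonacci and the Lucas numbers are members of the families.  For almost every member of the
families the two sequences have simultaneously prime values only finitely often, and the prime values of
each sequence repel each other. -/
theorem result :
    (∀ n : ℕ, F 1 n = Nat.fib n) ∧
    (∀ p : ℕ, p.Prime → 5 < p → (W (F 1) p : ℝ) = F 1 p ∧ (W (L 1) p : ℝ) = L 1 p) ∧
    (∀ A : ℝ → ℝ, ContDiffOn ℝ 2 A (Set.Ioi 0) → (∀ x, 0 < x → 0 < A x) →
      (∀ᵐ x : ℝ, 0 < x → {p : ℕ | p.Prime ∧ (W (fun n => A x * F x n) p).Prime ∧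
        (W (fun n => A x * L x n) p).Prime}.Finite) ∧
      (∀ B : ℝ → ℝ, ContDiffOn ℝ 2 B (Set.Ioi 0) → (∀ x, 0 < x → 0 < B x) →
        ∀ᵐ x : ℝ, 0 < x → deriv (fun u => B u * Real.sqrt (u ^ 2 + 4) / A u) x ≠ 0 →
          {p : ℕ | p.Prime ∧ (W (fun n => A x * F x n) p).Prime ∧
            (W (fun n => B x * L x n) p).Prime}.Finite) ∧
      ∀ E : Set (ℕ × ℕ), (∀ x ∈ E, x.1.Prime ∧ x.2.Prime ∧ x.1 < x.2) →
        (Summable fun x : E => wt x.1.1 * wt x.1.2) →
        ∀ᵐ x : ℝ, 0 < x → Repulsion (fun n => A x * F x n) E ∧ Repulsion (fun n => A x * L x n) E) := by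
  refine ⟨F_one, fun p hp h5 => ⟨W_fib hp h5, W_luc hp h5⟩, fun A hA hpos =>
    ⟨?_, fun B hB hBpos => ?_, fun E hE hs => ?_⟩⟩
  · filter_upwards [Pool.Agent.Q43.CV.joint_UV_same hA hpos] with x hx h0
    simp only [F_eq, L_eq]
    exact hx h0
  · filter_upwards [Pool.Agent.Q43.CV.joint_UV hA hpos hB hBpos] with x hx h0 hne
    simp only [F_eq, L_eq]
    exact hx h0 hne
  · filter_upwards [Pool.Agent.Q43.CV.rep_U hA hpos E hE hs,
      Pool.Agent.Q43.CV.rep_V hA hpos E hE hs] with x g1 g2 h0
    simp only [F_eq, L_eq]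
    exact ⟨rep_of (g1 h0), rep_of (g2 h0)⟩

end Pool.Agent.Results.MP_5893d7_nt.RepulsionAndJointPrimes
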