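import Mathlib
import Pool.Agent.Q43.UN.Fin
import Pool.Agent.H447R2.ML.Spec
import Pool.Agent.H19P.QA

set_option autoImplicit false

/-!
# Fibonacci and Lucas numbers: the law in all residue classes, uniformly in the modulus

For a real sequence `s` and a prime `p` let `W s p` be the `p`-rough part (the product, with
multiplicity, of the prime factors larger than `p`) of `⌊s p⌋`, and let `M s q a n` be the number of
primes `p ≤ n` with `p ≡ a (mod q)` and `W s p` prime.  We consider the real solutions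
`T β B n = β φ ^ n + B ψ ^ n` of the Fibonacci recurrence (`φ = (1 + √5) / 2`, `ψ = (1 - √5) / 2`) and the
sequences `A x * F x n`, `A x * L x n`, where `F x`, `L x` are the solutions of
`T (n + 2) = x T (n + 1) + T n` with the initial values `0, 1` and `2, x` (Fibonacci and Lucas
polynomials at the real number `x`).  The Fibonacci and the Lucas numbers are the members with
`β = 1 / √5`, `B = -1 / √5` and with `β = B = 1` of the first family, and the members with `x = 1`,
`A = 1` of the others; for them `W s p` is the number with the index `p` itself, for all primes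
`p > 5`.  We prove for every `B` and almost every `β > 0`, with `c = e ^ γ / log φ`, and for every
positive `C ^ 2` function `A` and almost every `x > 0`, with `c = e ^ γ / log ((x + √(x ^ 2 + 4)) / 2)`:
for every `ε > 0`, for ALL moduli `q`, all classes `a` prime to `q` and all `n` simultaneously,
`M s q a n = c log n / φ (q) + O (q ^ (1/2 + ε) (log n) ^ (1/2 + ε))`, with one constant (here `φ (q)` is
Euler's function).  The main term dominates for `q ≤ (log n) ^ (1/3 - δ)`.  In particular, for all large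
`q` every class prime to `q` contains a prime `p ≤ exp (q ^ (3 + ε))` with `W s p` prime.
-/

namespace Pool.Agent.Results.MP_5893d7_nt.UniformProgressions

open Filter Topology MeasureTheory

/-- The product, with multiplicity, of the prime factors of `m` that are larger than `p`. -/
def roughPart (p m : ℕ) : ℕ := (m.primeFactorsList.filter (fun r => p < r)).prod

/-- The `p`-rough part of the term with the index `p`. -/
def W (s : ℕ → ℕ) (p : ℕ) : ℕ := roughPart p (s p)

/-- The golden ratio. -/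
noncomputable def φ : ℝ := (1 + Real.sqrt 5) / 2

/-- The conjugate of the golden ratio. -/
noncomputable def ψ : ℝ := (1 - Real.sqrt 5) / 2

/-- The real solutions of the Fibonacci recurrence. -/
noncomputable def T (β B : ℝ) (n : ℕ) : ℝ := β * φ ^ n + B * ψ ^ n

/-- The Fibonacci polynomials at the real number `x`. -/
def F (x : ℝ) : ℕ → ℝ
  | 0 => 0
  | 1 => 1
  | n + 2 => x * F x (n + 1) + F x n

/-- The Lucas polynomials at the real number `x`. -/
def L (x : ℝ) : ℕ → ℝ
  | 0 => 2
  | 1 => x
  | n + 2 => x * L x (n + 1) + L x n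

/-- The integer parts of a real sequence. -/
noncomputable def ip (s : ℕ → ℝ) (n : ℕ) : ℕ := ⌊s n⌋₊

open Classical in
/-- The number of primes `p ≤ n` with `p ≡ a (mod q)` for which `W s p` is prime. -/
noncomputable def M (s : ℕ → ℕ) (q a n : ℕ) : ℕ :=
  ((Finset.range (n + 1)).filter (fun p => p.Prime ∧ p ≡ a [MOD q] ∧ (W s p).Prime)).card

/-- The law with the constant `c` in all residue classes, and the bound for the least exponent in a
residue class. -/
structure Law (s : ℕ → ℕ) (c : ℝ) : Prop where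
  /-- the number of the exponents in a residue class, uniformly in the modulus -/
  uniform : ∀ ε : ℝ, 0 < ε → ∃ B : ℝ, ∀ n : ℕ, 3 ≤ n → ∀ q a : ℕ, 1 ≤ q → a.Coprime q →
    |(M s q a n : ℝ) - c * (Real.log n / Nat.totient q)| ≤
      B * ((q : ℝ) ^ (1 / 2 + ε) * Real.log n ^ (1 / 2 + ε))
  /-- the least exponent in a residue class -/
  least : ∀ ε : ℝ, 0 < ε → ∃ Q : ℕ, ∀ q a : ℕ, Q ≤ q → a.Coprime q →
    ∃ p : ℕ, p.Prime ∧ p ≡ a [MOD q] ∧ (W s p).Prime ∧ (p : ℝ) ≤ Real.exp ((q : ℝ) ^ (3 + ε))

lemma M_eq (s : ℕ → ℕ) (q a n : ℕ) : M s q a n = Pool.Agent.TH888.R.cS (Pool.Agent.Q43.UN.Cl q a) s n := by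
  classical
  unfold M Pool.Agent.TH888.R.cS
  congr 1
  ext p
  simp only [Finset.mem_filter]
  rfl

lemma law_of {s : ℕ → ℕ} {c : ℝ} (hc : 0 < c) (h : Pool.Agent.Q43.UN.UPt s c) : Law s c := by
  refine ⟨fun ε hε => ?_, fun ε hε => h.least hc hε⟩
  obtain ⟨B, _, hB⟩ := h ε hε
  simp only [M_eq]
  exact ⟨B, hB⟩

lemma sqrt5_sq : Real.sqrt 5 ^ 2 = 5 := Real.sq_sqrt (by norm_num)

lemma sqrt5_pos : 0 < Real.sqrt 5 := Real.sqrt_pos.2 (by norm_num)

lemma one_lt_phi : 1 < φ := by
  unfold φ
  nlinarith [sqrt5_sq, sqrt5_pos]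

lemma phi_add : φ + ψ = ((1 : ℤ) : ℝ) := by unfold φ ψ; push_cast; ring

lemma phi_mul : φ * ψ = -1 := by unfold φ ψ; nlinarith [sqrt5_sq]

lemma phi_sq : φ ^ 2 = φ + 1 := by unfold φ; nlinarith [sqrt5_sq]

lemma psi_sq : ψ ^ 2 = ψ + 1 := by unfold ψ; nlinarith [sqrt5_sq]

lemma T_rec (β B : ℝ) (n : ℕ) : T β B (n + 2) = T β B (n + 1) + T β B n := by
  unfold T
  rw [pow_add φ n 2, pow_add ψ n 2, phi_sq, psi_sq]
  ring

lemma F_eq (x : ℝ) (n : ℕ) : F x n = Pool.Agent.W66C.lU x n := by
  induction n using Nat.twoStepInduction with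
  | zero => rfl
  | one => rfl
  | more n h1 h2 => rw [F, h1, h2]; rfl

lemma L_eq (x : ℝ) (n : ℕ) : L x n = Pool.Agent.W66C.lV x n := by
  induction n using Nat.twoStepInduction with
  | zero => rfl
  | one => rfl
  | more n h1 h2 => rw [L, h1, h2]; rfl

lemma F_one (n : ℕ) : F 1 n = (Nat.fib n : ℝ) := by
  induction n using Nat.twoStepInduction with
  | zero => simp [F]
  | one => simp [F]
  | more n h1 h2 =>
    rw [F, h1, h2, Nat.fib_add_two]
    push_cast
    ring

lemma L_one (n : ℕ) : L 1 n = (Pool.Agent.H447R2.ML.V 1 n : ℝ) := by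
  induction n using Nat.twoStepInduction with
  | zero => rw [L]; norm_num [Pool.Agent.H447R2.ML.V]
  | one => rw [L]; norm_num [Pool.Agent.H447R2.ML.V]
  | more n h1 h2 =>
    rw [L, h1, h2, Pool.Agent.H447R2.ML.V_add_two]
    push_cast
    ring

/-- the Fibonacci numbers in the first family -/
lemma T_fib (n : ℕ) : T (1 / Real.sqrt 5) (-(1 / Real.sqrt 5)) n = F 1 n := by
  induction n using Nat.twoStepInduction with
  | zero => unfold T; simp [F]
  | one =>
    unfold T
    have := sqrt5_pos.ne'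
    unfold φ ψ
    rw [F]
    field_simp
    ring
  | more n h1 h2 =>
    rw [T_rec, h1, h2, F]
    ring

/-- the Lucas numbers in the first family -/
lemma T_luc (n : ℕ) : T 1 1 n = L 1 n := by
  induction n using Nat.twoStepInduction with
  | zero => unfold T; rw [L]; norm_num
  | one =>
    unfold T φ ψ
    rw [L]
    ring
  | more n h1 h2 =>
    rw [T_rec, h1, h2, L]
    ring

lemma fib_eq (n : ℕ) : Pool.Agent.H447R2.ML.U 1 n = Nat.fib n := by
  induction n using Nat.twoStepInduction with
  | zero => rfl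
  | one => rfl
  | more n h1 h2 =>
    rw [Pool.Agent.H447R2.ML.U_add_two, h1, h2, Nat.fib_add_two]
    ring

/-- The Fibonacci numbers. -/
lemma W_fib {p : ℕ} (hp : p.Prime) (h5 : 5 < p) : (W (ip (F 1)) p : ℝ) = F 1 p := by
  have hd : ¬ p ∣ 1 ^ 2 + 4 := by
    intro h
    have := Nat.le_of_dvd (by norm_num) h
    omega
  have h := Pool.Agent.H447R2.ML.rough_U 1 one_pos hp (by omega) hd
    (x := F 1 p) (by rw [F_one, fib_eq])
  rw [fib_eq] at h
  rw [F_one]
  exact_mod_cast h

/-- The Lucas numbers. -/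
lemma W_luc {p : ℕ} (hp : p.Prime) (h5 : 5 < p) : (W (ip (L 1)) p : ℝ) = L 1 p := by
  have hd : ¬ p ∣ 1 := fun h => hp.one_lt.ne' (Nat.dvd_one.1 h)
  have h : Pool.Agent.H305R2.roughPart p ⌊L 1 p⌋₊ = Pool.Agent.H447R2.ML.V 1 p := by
    rw [L_one, Nat.floor_natCast]
    refine Pool.Agent.H447R2.ML.roughPart_eq_self ?_ fun q hq h => ?_
    · exact (Pool.Agent.H447R2.ML.V_pos 1 p one_pos).ne'
    · exact Pool.Agent.H447R2.ML.lt_of_dvd_V 1 hp (by omega) hd hq
        (fun h' => hq.one_lt.ne' (Nat.dvd_one.1 h')) h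
  rw [L_one]
  exact_mod_cast h

/-- The Fibonacci and the Lucas numbers are members of the families.  In the families of the real
solutions of the Fibonacci recurrence and of the values of the Fibonacci and Lucas polynomials at real
numbers the law holds almost everywhere in all residue classes, with an error term that is uniform in
the modulus. -/
theorem result :
    (∀ n : ℕ, F 1 n = Nat.fib n ∧ T (1 / Real.sqrt 5) (-(1 / Real.sqrt 5)) n = F 1 n ∧
      T 1 1 n = L 1 n) ∧
    (∀ p : ℕ, p.Prime → 5 < p → (W (ip (F 1)) p : ℝ) = F 1 p ∧ (W (ip (L 1)) p : ℝ) = L 1 p) ∧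
    (∀ B : ℝ, ∀ᵐ β : ℝ, 0 < β →
      Law (ip (T β B)) (Real.exp Real.eulerMascheroniConstant / Real.log φ)) ∧
    (∀ (A : ℝ → ℝ), ContDiffOn ℝ 2 A (Set.Ioi 0) → (∀ x, 0 < x → 0 < A x) →
      ∀ᵐ x : ℝ, 0 < x →
        Law (ip (fun n => A x * F x n))
          (Real.exp Real.eulerMascheroniConstant / Real.log ((x + Real.sqrt (x ^ 2 + 4)) / 2)) ∧
        Law (ip (fun n => A x * L x n))
          (Real.exp Real.eulerMascheroniConstant / Real.log ((x + Real.sqrt (x ^ 2 + 4)) / 2))) := by
  refine ⟨fun n => ⟨F_one n, T_fib n, T_luc n⟩, fun p hp h5 => ⟨W_fib hp h5, W_luc hp h5⟩,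
    fun B => ?_, fun A hA hpos => ?_⟩
  · have hg : ∀ p : ℕ, |(fun p : ℕ => B * ψ ^ p) p| ≤ |B| * (1 : ℝ) ^ p := by
      intro p
      simp only
      rw [one_pow, abs_mul, abs_pow]
      exact mul_le_mul_of_nonneg_left (pow_le_one₀ (abs_nonneg _)
        (Pool.Agent.H19P.conj_abs one_lt_phi phi_mul).le) (abs_nonneg _)
    have hnear : Pool.Agent.TH888.R.Near φ (fun p : ℕ => B * ψ ^ p) := fun b0 =>
      Pool.Agent.W66V.near_irr one_lt_phi zero_le_one one_lt_phi hg le_rfl one_lt_phi
        (fun h a b hh ha hb => Pool.Agent.H19P.dio_unit one_lt_phi phi_add phi_mul h a b hh ha hb) b0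
    filter_upwards [Pool.Agent.Q43.UN.upt_floor one_lt_phi zero_le_one one_lt_phi hg hnear] with β hβ h0
    exact law_of (div_pos (Real.exp_pos _) (Real.log_pos one_lt_phi)) (hβ h0)
  · filter_upwards [Pool.Agent.Q43.UN.upt_U_curve hA hpos, Pool.Agent.Q43.UN.upt_V_curve hA hpos] with x h1 h2 hx
    have hc : 0 < Real.exp Real.eulerMascheroniConstant / Real.log ((x + Real.sqrt (x ^ 2 + 4)) / 2) := by
      refine div_pos (Real.exp_pos _) (Real.log_pos ?_)
      have h3 : 2 < Real.sqrt (x ^ 2 + 4) := by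
        rw [Real.lt_sqrt (by norm_num)]
        nlinarith
      linarith
    have e1 : ip (fun n => A x * F x n) = fun p => ⌊A x * Pool.Agent.W66C.lU x p⌋₊ := by
      funext n; unfold ip; simp only [F_eq]
    have e2 : ip (fun n => A x * L x n) = fun p => ⌊A x * Pool.Agent.W66C.lV x p⌋₊ := by
      funext n; unfold ip; simp only [L_eq]
    rw [e1, e2]
    exact ⟨law_of hc (h1 hx), law_of hc (h2 hx)⟩

end Pool.Agent.Results.MP_5893d7_nt.UniformProgressions
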